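import Mathlib

/-! Parity of the number of prime factors along the river of an indefinite binary form. -/

set_option autoImplicit false

namespace Pool.Agent.Lib.LV51

/-- The Liouville sign of the absolute value of an integer. -/
def lam (a : ℤ) : ℤ := (-1) ^ (ArithmeticFunction.cardFactors a.natAbs)

lemma lam_mul {a b : ℤ} (ha : a ≠ 0) (hb : b ≠ 0) : lam (a * b) = lam a * lam b := by
  unfold lam
  rw [Int.natAbs_mul, ArithmeticFunction.cardFactors_mul (by simpa using ha) (by simpa using hb),
    pow_add]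

lemma lam_mul_self (a : ℤ) : lam a * lam a = 1 := by
  unfold lam
  rw [← mul_pow]; simp

lemma lam_neg (a : ℤ) : lam (-a) = lam a := by simp [lam]

lemma lam_one : lam 1 = 1 := by simp [lam]

lemma lam_prime {p : ℕ} (hp : p.Prime) : lam (p : ℤ) = -1 := by
  simp [lam, ArithmeticFunction.cardFactors_apply_prime hp]

/-- The bilinear form of `a x² + 2 b x y + c y²`. -/
def Bf (a b c x y z w : ℤ) : ℤ := a * x * z + b * (x * w + y * z) + c * y * w

/-- The quadratic form `a x² + 2 b x y + c y²`. -/
def Qf (a b c x y : ℤ) : ℤ := a * x ^ 2 + 2 * b * x * y + c * y ^ 2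

/-- All positive numbers `n - b²` have an even number of prime factors. -/
def Hy (n : ℤ) : Prop := ∀ b : ℤ, b ^ 2 < n → lam (n - b ^ 2) = 1

/-- `n` is not a rational square. -/
def NSq (n : ℤ) : Prop := ∀ x y : ℤ, x ^ 2 = n * y ^ 2 → y = 0

/-- The sign is `s` on the first vector of every river basis. -/
def Cst (a b c s : ℤ) : Prop := ∀ x y z w : ℤ, (x * w - y * z) ^ 2 = 1 →
  Qf a b c x y * Qf a b c z w < 0 → lam (Qf a b c x y) = s

lemma pair0 {n a b c : ℤ} (H : Hy n) (h : b ^ 2 - a * c = n) (hac : a * c < 0) :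
    lam a = lam c := by
  have ha : a ≠ 0 := by rintro rfl; simp at hac
  have hc : c ≠ 0 := by rintro rfl; simp at hac
  have h1 := H b (by linarith)
  rw [show n - b ^ 2 = -(a * c) by linarith, lam_neg, lam_mul ha hc] at h1
  have h2 := lam_mul_self c
  calc lam a = lam a * (lam c * lam c) := by rw [h2, mul_one]
    _ = lam c := by rw [← mul_assoc, h1, one_mul]

lemma qf_ne {n a b c x y : ℤ} (hn : NSq n) (h : b ^ 2 - a * c = n) (hxy : x ≠ 0 ∨ y ≠ 0) :
    Qf a b c x y ≠ 0 := by
  intro h0
  unfold Qf at h0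
  have hy : y = 0 := hn (a * x + b * y) y (by rw [← h]; linear_combination a * h0)
  have hx : x = 0 := hn (b * x + c * y) x (by rw [← h]; linear_combination c * h0)
  tauto

lemma chain {n : ℤ} (hn : NSq n) (H : Hy n) : ∀ s : ℕ, ∀ a b c x y z w : ℤ,
    b ^ 2 - a * c = n → a * c < 0 → 0 ≤ x → 0 ≤ y → 0 ≤ z → 0 ≤ w → x + y + z + w ≤ s →
    (x * w - y * z) ^ 2 = 1 → Qf a b c x y * Qf a b c z w < 0 →
    lam (Qf a b c x y) = lam a := by
  intro s
  induction s with
  | zero =>
    intro a b c x y z w _ _ hx hy hz hw hs hd _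
    have h1 : x = 0 := by omega
    have h2 : y = 0 := by omega
    simp [h1, h2] at hd
  | succ s ih =>
    intro a b c x y z w h hac hx hy hz hw hs hd hr
    have hd1 : x * w - y * z ≤ 1 ∧ -1 ≤ x * w - y * z := by constructor <;> nlinarith
    have hu : a + 2 * b + c ≠ 0 := by
      simpa [Qf] using qf_ne (x := 1) (y := 1) hn h (Or.inl one_ne_zero)
    by_cases h1 : y < x ∧ z < w
    · have h2 : (y + 1) * (z + 1) ≤ x * w :=
        mul_le_mul (by omega) (by omega) (by omega) (by omega)
      have hy0 : y = 0 := by nlinarith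
      have hz0 : z = 0 := by nlinarith
      subst hy0 hz0
      have hx1 : x = 1 := by nlinarith
      simp [Qf, hx1]
    by_cases h2 : x < y ∧ w < z
    · have h3 : (x + 1) * (w + 1) ≤ y * z :=
        mul_le_mul (by omega) (by omega) (by omega) (by omega)
      have hx0 : x = 0 := by nlinarith
      have hw0 : w = 0 := by nlinarith
      subst hx0 hw0
      have hy1 : y = 1 := by nlinarith
      simp [Qf, hy1, pair0 H h hac]
    have hc0 : c ≠ 0 := by rintro rfl; simp at hac
    have ha0 : a ≠ 0 := by rintro rfl; simp at hac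
    by_cases h3 : x ≤ y ∧ z ≤ w
    · have e : ∀ s t : ℤ, Qf a b c s t = Qf (a + 2 * b + c) (b + c) c s (t - s) := by
        intro s t; unfold Qf; ring
      have hneg : (a + 2 * b + c) * c < 0 := by
        by_contra hh
        have hp : 0 ≤ (a + 2 * b + c) * c := not_lt.mp hh
        have hb : 0 ≤ (b + c) * c := by nlinarith [sq_nonneg c]
        have k : ∀ s t : ℤ, 0 ≤ s → s ≤ t → 0 ≤ c * Qf a b c s t := by
          intro s t hs ht
          have : c * Qf a b c s t = ((a + 2 * b + c) * c) * s ^ 2
              + 2 * ((b + c) * c) * (s * (t - s)) + (c * (t - s)) ^ 2 := by unfold Qf; ring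
          rw [this]
          have : 0 ≤ s * (t - s) := mul_nonneg hs (by omega)
          positivity
        have k1 := mul_nonneg (k x y hx h3.1) (k z w hz h3.2)
        have k2 : 0 < c ^ 2 := by positivity
        nlinarith [mul_pos k2 (neg_pos.mpr hr)]
      have hxz : 1 ≤ x + z := by
        by_contra hh
        have : x = 0 := by omega
        have : z = 0 := by omega
        simp_all
      have hdisc : (b + c) ^ 2 - (a + 2 * b + c) * c = n := by rw [← h]; ring
      rw [e x y, e z w] at hr
      rw [e x y, ih _ _ _ x (y - x) z (w - z) hdisc hneg hx (by omega) hz (by omega)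
        (by push_cast at hs; omega) (by rw [← hd]; ring) hr, pair0 H hdisc hneg, pair0 H h hac]
    · have h4 : y ≤ x ∧ w ≤ z := by omega
      have e : ∀ s t : ℤ, Qf a b c s t = Qf a (a + b) (a + 2 * b + c) (s - t) t := by
        intro s t; unfold Qf; ring
      have hneg : a * (a + 2 * b + c) < 0 := by
        by_contra hh
        have hp : 0 ≤ a * (a + 2 * b + c) := not_lt.mp hh
        have hb : 0 ≤ a * (a + b) := by nlinarith [sq_nonneg a]
        have k : ∀ s t : ℤ, 0 ≤ t → t ≤ s → 0 ≤ a * Qf a b c s t := by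
          intro s t hs ht
          have : a * Qf a b c s t = (a * (a + 2 * b + c)) * t ^ 2
              + 2 * (a * (a + b)) * (t * (s - t)) + (a * (s - t)) ^ 2 := by unfold Qf; ring
          rw [this]
          have : 0 ≤ t * (s - t) := mul_nonneg hs (by omega)
          positivity
        have k1 := mul_nonneg (k x y hy h4.1) (k z w hw h4.2)
        have k2 : 0 < a ^ 2 := by positivity
        nlinarith [mul_pos k2 (neg_pos.mpr hr)]
      have hxz : 1 ≤ y + w := by
        by_contra hh
        have : y = 0 := by omega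
        have : w = 0 := by omega
        simp_all
      have hdisc : (a + b) ^ 2 - a * (a + 2 * b + c) = n := by rw [← h]; ring
      rw [e x y, e z w] at hr
      rw [e x y, ih _ _ _ (x - y) y (z - w) w hdisc hneg (by omega) hy (by omega) hw
        (by push_cast at hs; omega) (by rw [← hd]; ring) hr]

lemma river {n a b c : ℤ} (hn : NSq n) (H : Hy n) (h : b ^ 2 - a * c = n) (hac : a * c < 0) :
    Cst a b c (lam a) := by
  intro x y z w hd hr
  have key : ∀ e : ℤ, e ^ 2 = 1 → |x| * |y| = e * (x * y) → |z| * |w| = e * (z * w) →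
      lam (Qf a b c x y) = lam a := by
    intro e he h1 h2
    have e1 : Qf a b c x y = Qf a (e * b) c |x| |y| := by
      unfold Qf; rw [sq_abs, sq_abs]
      linear_combination (-2 * e * b) * h1 - (2 * b * x * y) * he
    have e2 : Qf a b c z w = Qf a (e * b) c |z| |w| := by
      unfold Qf; rw [sq_abs, sq_abs]
      linear_combination (-2 * e * b) * h2 - (2 * b * z * w) * he
    rw [e1, e2] at hr
    rw [e1]
    refine chain hn H (|x| + |y| + |z| + |w|).toNat a (e * b) c _ _ _ _
      (by rw [← h]; linear_combination b ^ 2 * he) hac (abs_nonneg _) (abs_nonneg _)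
      (abs_nonneg _) (abs_nonneg _) (Int.self_le_toNat _) ?_ hr
    have h3 : (|x| * |w| - |y| * |z|) ^ 2
        = |x| ^ 2 * |w| ^ 2 + |y| ^ 2 * |z| ^ 2 - 2 * ((|x| * |y|) * (|z| * |w|)) := by ring
    rw [h3, h1, h2, sq_abs, sq_abs, sq_abs, sq_abs]
    linear_combination hd - (2 * x * y * z * w) * he
  have hs : 0 ≤ (x * y) * (z * w) := by
    by_contra hh
    have h1 : (x * w) * (y * z) ≤ -1 := by nlinarith
    nlinarith [sq_nonneg (x * w), sq_nonneg (y * z)]
  rcases mul_nonneg_iff.mp hs with h1 | h1
  · exact key 1 (by norm_num) (by rw [← abs_mul, abs_of_nonneg h1.1, one_mul])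
      (by rw [← abs_mul, abs_of_nonneg h1.2, one_mul])
  · exact key (-1) (by norm_num) (by rw [← abs_mul, abs_of_nonpos h1.1, neg_one_mul])
      (by rw [← abs_mul, abs_of_nonpos h1.2, neg_one_mul])

lemma qf_comp (a b c x y z w s t : ℤ) :
    Qf (Qf a b c x y) (Bf a b c x y z w) (Qf a b c z w) s t
      = Qf a b c (x * s + z * t) (y * s + w * t) := by
  unfold Qf Bf; ring

lemma disc_comp (a b c x y z w : ℤ) :
    Bf a b c x y z w ^ 2 - Qf a b c x y * Qf a b c z w
      = (b ^ 2 - a * c) * (x * w - y * z) ^ 2 := by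
  unfold Qf Bf; ring

lemma det_comp (x y z w s t u v : ℤ) :
    ((x * s + z * t) * (y * u + w * v) - (y * s + w * t) * (x * u + z * v)) ^ 2
      = (x * w - y * z) ^ 2 * (s * v - t * u) ^ 2 := by ring

lemma Cst.comp {a b c s : ℤ} (h : Cst a b c s) {x y z w : ℤ} (hd : (x * w - y * z) ^ 2 = 1) :
    Cst (Qf a b c x y) (Bf a b c x y z w) (Qf a b c z w) s := by
  intro s t u v hd' hr
  rw [qf_comp, qf_comp] at hr
  rw [qf_comp]
  exact h _ _ _ _ (by rw [det_comp, hd, hd', one_mul]) hr

end Pool.Agent.Lib.LV51
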