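import Pool.Agent.Lib.LV51.A

/-! The sign flips under the primes above 3 and 5. -/

set_option autoImplicit false

namespace Pool.Agent.Lib.LV51

/-- Every line modulo `l` contains the first vector of a river basis of the form. -/
def Hit (l a b c : ℤ) : Prop := ∀ x z : ℤ, ∃ s t u v : ℤ, (s * v - t * u) ^ 2 = 1 ∧
  Qf a b c s t * Qf a b c u v < 0 ∧ l ∣ x * s + z * t

/-- `Hit` for all river forms of determinant `n`. -/
def Cov (l n : ℤ) : Prop := ∀ a b c : ℤ, b ^ 2 - a * c = n → a * c < 0 → Hit l a b c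

lemma Hit.of_comp {l a b c x y z w a' b' c' : ℤ} (hd : (x * w - y * z) ^ 2 = 1)
    (ha : a' = Qf a b c x y) (hb : b' = Bf a b c x y z w) (hc : c' = Qf a b c z w)
    (h : Hit l a' b' c') : Hit l a b c := by
  intro p q
  obtain ⟨s, t, u, v, h1, h2, h3⟩ := h (p * x + q * y) (p * z + q * w)
  subst ha hb hc
  rw [qf_comp, qf_comp] at h2
  refine ⟨_, _, _, _, by rw [det_comp, hd, h1, one_mul], h2, ?_⟩
  rwa [show p * (x * s + z * t) + q * (y * s + w * t)
    = (p * x + q * y) * s + (p * z + q * w) * t by ring]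

lemma partner {q a c : ℤ} (hq : q ≠ 0) (hac : a * c < 0) : q * a < 0 ∨ q * c < 0 := by
  by_contra hh
  have h1 : 0 ≤ q * a := by omega
  have h2 : 0 ≤ q * c := by omega
  have h3 : 0 < q ^ 2 := by positivity
  nlinarith [mul_nonneg h1 h2, mul_pos h3 (neg_pos.mpr hac)]

/-- A vector unimodular with both vectors of a river basis is on the river. -/
lemma onriver {n a b c x y z w s t : ℤ} (hn : NSq n) (h : b ^ 2 - a * c = n)
    (hr : Qf a b c x y * Qf a b c z w < 0) (h1 : (s * y - t * x) ^ 2 = 1)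
    (h2 : (s * w - t * z) ^ 2 = 1) :
    ∃ u v : ℤ, (s * v - t * u) ^ 2 = 1 ∧ Qf a b c s t * Qf a b c u v < 0 := by
  have hq : Qf a b c s t ≠ 0 := qf_ne hn h (by
    by_contra hh
    have e1 : s = 0 := by tauto
    have e2 : t = 0 := by tauto
    simp [e1, e2] at h1)
  rcases partner hq hr with h3 | h3
  exacts [⟨x, y, h1, h3⟩, ⟨z, w, h2, h3⟩]

lemma hit_of {l n a b c x z s t : ℤ} (hn : NSq n) (h : b ^ 2 - a * c = n) {p q u v : ℤ}
    (hr : Qf a b c p q * Qf a b c u v < 0) (h1 : (s * q - t * p) ^ 2 = 1)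
    (h2 : (s * v - t * u) ^ 2 = 1) (hl : l ∣ x * s + z * t) :
    ∃ s t u v : ℤ, (s * v - t * u) ^ 2 = 1 ∧
      Qf a b c s t * Qf a b c u v < 0 ∧ l ∣ x * s + z * t := by
  obtain ⟨u', v', h3, h4⟩ := onriver hn h hr h1 h2
  exact ⟨s, t, u', v', h3, h4, hl⟩

lemma cov3 {n : ℤ} (hn : NSq n) : Cov 3 n := by
  intro a b c h hac x z
  have hr : Qf a b c 1 0 * Qf a b c 0 1 < 0 := by simpa [Qf] using hac
  have : 3 ∣ x * 1 + z * 0 ∨ 3 ∣ x * 0 + z * 1 ∨ 3 ∣ x * 1 + z * 1 ∨ 3 ∣ x * 1 + z * (-1) := by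
    have h1 : x % 3 = 0 ∨ x % 3 = 1 ∨ x % 3 = 2 := by omega
    have h2 : z % 3 = 0 ∨ z % 3 = 1 ∨ z % 3 = 2 := by omega
    rcases h1 with h1 | h1 | h1 <;> rcases h2 with h2 | h2 | h2 <;> omega
  rcases this with h1 | h1 | h1 | h1
  · exact ⟨1, 0, 0, 1, by norm_num, hr, h1⟩
  · exact ⟨0, 1, 1, 0, by norm_num, by rwa [mul_comm], h1⟩
  · exact hit_of hn h hr (by norm_num) (by norm_num) h1
  · exact hit_of hn h hr (by norm_num) (by norm_num) h1

lemma hit5_good {n a b c : ℤ} (hn : NSq n) (h : b ^ 2 - a * c = n) (hac : a * c < 0)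
    (hp : (a + 2 * b + c) * c < 0) (hm : (a - 2 * b + c) * c < 0) : Hit 5 a b c := by
  intro x z
  have hr : Qf a b c 1 0 * Qf a b c 0 1 < 0 := by simpa [Qf] using hac
  have hr1 : Qf a b c 1 1 * Qf a b c 0 1 < 0 := by simpa [Qf] using hp
  have hr2 : Qf a b c 1 (-1) * Qf a b c 0 1 < 0 := by
    rw [show Qf a b c 1 (-1) = a - 2 * b + c by unfold Qf; ring]; simpa [Qf] using hm
  have : 5 ∣ x * 1 + z * 0 ∨ 5 ∣ x * 0 + z * 1 ∨ 5 ∣ x * 1 + z * 1 ∨ 5 ∣ x * 1 + z * (-1)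
      ∨ 5 ∣ x * 1 + z * 2 ∨ 5 ∣ x * 1 + z * (-2) := by
    have h1 : x % 5 = 0 ∨ x % 5 = 1 ∨ x % 5 = 2 ∨ x % 5 = 3 ∨ x % 5 = 4 := by omega
    have h2 : z % 5 = 0 ∨ z % 5 = 1 ∨ z % 5 = 2 ∨ z % 5 = 3 ∨ z % 5 = 4 := by omega
    rcases h1 with h1 | h1 | h1 | h1 | h1 <;> rcases h2 with h2 | h2 | h2 | h2 | h2 <;> omega
  rcases this with h1 | h1 | h1 | h1 | h1 | h1
  · exact ⟨1, 0, 0, 1, by norm_num, hr, h1⟩
  · exact ⟨0, 1, 1, 0, by norm_num, by rwa [mul_comm], h1⟩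
  · exact ⟨1, 1, 0, 1, by norm_num, hr1, h1⟩
  · exact ⟨1, -1, 0, 1, by norm_num, hr2, h1⟩
  · exact hit_of hn h hr1 (by norm_num) (by norm_num) h1
  · exact hit_of hn h hr2 (by norm_num) (by norm_num) h1

lemma cov5 {n : ℤ} (hn : NSq n) (h5 : ∀ b : ℤ, n ≠ 5 * b ^ 2) : Cov 5 n := by
  by_contra hh
  have hex : ∃ t : ℤ, ∃ a b c : ℤ, b ^ 2 - a * c = n ∧ a * c < 0 ∧ ¬ Hit 5 a b c ∧
      t = |a + c| := by
    unfold Cov at hh
    push Not at hh
    obtain ⟨a, b, c, h1, h2, h3⟩ := hh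
    exact ⟨_, a, b, c, h1, h2, h3, rfl⟩
  obtain ⟨t, ⟨a, b, c, h, hac, hno, rfl⟩, hmax⟩ := Int.exists_greatest_of_bdd ⟨n + 1, by
    rintro t ⟨a, b, c, h, hac, -, rfl⟩
    have ha : 1 ≤ |a| := Int.one_le_abs (by rintro rfl; simp at hac)
    have hc : 1 ≤ |c| := Int.one_le_abs (by rintro rfl; simp at hac)
    have h1 : |a| * |c| = -(a * c) := by rw [← abs_mul, abs_of_neg hac]
    have h2 := abs_add_le a c
    nlinarith [sq_nonneg b, mul_nonneg (sub_nonneg.mpr ha) (sub_nonneg.mpr hc)]⟩ hex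
  have mv : ∀ x y z w a' b' c' : ℤ, (x * w - y * z) ^ 2 = 1 → a' = Qf a b c x y →
      b' = Bf a b c x y z w → c' = Qf a b c z w → a' * c' < 0 → |a' + c'| ≤ |a + c| := by
    intro x y z w a' b' c' hd ha hb hc hr
    refine hmax _ ⟨a', b', c', ?_, hr, fun hit => hno (Hit.of_comp hd ha hb hc hit), rfl⟩
    rw [ha, hb, hc, disc_comp, hd, h, mul_one]
  have hp : a + 2 * b + c ≠ 0 := by
    simpa [Qf] using qf_ne (x := 1) (y := 1) hn h (Or.inl one_ne_zero)
  have hm : a - 2 * b + c ≠ 0 := by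
    have := qf_ne (x := 1) (y := -1) hn h (Or.inl one_ne_zero)
    rwa [show Qf a b c 1 (-1) = a - 2 * b + c by unfold Qf; ring] at this
  have fin : ∀ u v : ℤ, u + v = 3 * (a + c) → |u| ≤ |a + c| → |v| ≤ |a + c| →
      a + c = 0 ∧ u = 0 := by
    intro u v h1 h2 h3
    have h4 := abs_add_le u v
    rw [h1, abs_mul, abs_of_pos (by norm_num : (0 : ℤ) < 3)] at h4
    have h5 : |a + c| = 0 := by have := abs_nonneg (a + c); omega
    rw [h5] at h2
    exact ⟨abs_eq_zero.mp h5, abs_nonpos_iff.mp h2⟩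
  rcases partner hp hac with h1 | h1 <;> rcases partner hm hac with h2 | h2
  · refine hno (Hit.of_comp (x := 0) (y := 1) (z := 1) (w := 0) (a' := c) (b' := b) (c' := a)
      (by norm_num) (by simp [Qf]) (by simp [Bf]) (by simp [Qf]) ?_)
    exact hit5_good hn (by rw [← h]; ring) (by rwa [mul_comm])
      (by rwa [show c + 2 * b + a = a + 2 * b + c by ring])
      (by rwa [show c - 2 * b + a = a - 2 * b + c by ring])
  · have k1 := mv 1 1 1 0 (a + 2 * b + c) (a + b) a (by norm_num) (by simp [Qf])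
      (by simp [Bf]) (by simp [Qf]) h1
    have k2 := mv 1 (-1) 0 1 (a - 2 * b + c) (b - c) c (by norm_num) (by unfold Qf; ring)
      (by unfold Bf; ring) (by simp [Qf]) h2
    obtain ⟨e1, e2⟩ := fin _ _ (by ring) k1 k2
    have e3 : a = -(2 * b) := by omega
    have e4 : c = 2 * b := by omega
    exact h5 b (by rw [← h, e3, e4]; ring)
  · have k1 := mv 1 1 0 1 (a + 2 * b + c) (b + c) c (by norm_num) (by simp [Qf])
      (by simp [Bf]) (by simp [Qf]) h1
    have k2 := mv 1 (-1) 1 0 (a - 2 * b + c) (a - b) a (by norm_num) (by unfold Qf; ring)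
      (by unfold Bf; ring) (by simp [Qf]) h2
    obtain ⟨e1, e2⟩ := fin _ _ (by ring) k1 k2
    have e3 : a = 2 * b := by omega
    have e4 : c = -(2 * b) := by omega
    exact h5 b (by rw [← h, e3, e4]; ring)
  · exact hno (hit5_good hn h hac h1 h2)

lemma step {n a b c s : ℤ} {l : ℕ} (hn : NSq n) (H : Hy n) (hl : l.Prime) (hc : Cov l n)
    (h : b ^ 2 - a * (l * c) = n) (hs : Cst (l * a) b c s) : Cst a b (l * c) (-s) := by
  intro x y z w hd hr
  have h1 : Bf a b (l * c) x y z w ^ 2 - Qf a b (l * c) x y * Qf a b (l * c) z w = n := by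
    rw [disc_comp, hd, h, mul_one]
  obtain ⟨s', t, u, v, h2, h3, x', h4⟩ := hc _ _ _ h1 hr x z
  rw [← river hn H h1 hr s' t u v h2 h3]
  rw [qf_comp, qf_comp] at h3
  have h5 := det_comp x y z w s' t u v
  rw [hd, h2, one_mul] at h5
  rw [qf_comp]
  rw [h4] at h3 h5 ⊢
  generalize y * s' + w * t = y' at *
  generalize x * u + z * v = z' at *
  generalize y * u + w * v = w' at *
  have e1 : Qf a b (l * c) (l * x') y' = l * Qf (l * a) b c x' y' := by unfold Qf; ring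
  have e2 : Qf (l * a) b c z' (l * w') = l * Qf a b (l * c) z' w' := by unfold Qf; ring
  have h6 : Qf (l * a) b c x' y' * Qf (l * a) b c z' (l * w') < 0 := by
    rw [e2]; rw [e1] at h3; linarith
  have h7 := hs x' y' z' (l * w') (by rw [← h5]; ring) h6
  have h8 : Qf (l * a) b c x' y' ≠ 0 := by rintro h0; simp [h0] at h6
  rw [e1, lam_mul (by exact_mod_cast hl.ne_zero) h8, lam_prime hl, h7, neg_one_mul]

lemma steps {n : ℤ} {l : ℕ} (hn : NSq n) (H : Hy n) (hl : l.Prime) (hc : Cov l n) :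
    ∀ j : ℕ, ∀ a b c s : ℤ, b ^ 2 - (l ^ j * a) * c = n → Cst (l ^ j * a) b c s →
      Cst a b (l ^ j * c) ((-1) ^ j * s) := by
  intro j
  induction j with
  | zero => intro a b c s _ h; simpa using h
  | succ j ih =>
    intro a b c s h hs
    have h1 := ih (l * a) b c s (by rw [← h]; ring)
      (by rwa [show (l : ℤ) ^ j * (l * a) = l ^ (j + 1) * a by ring])
    have h2 := step (c := l ^ j * c) hn H hl hc (by rw [← h]; ring) h1
    rwa [show (l : ℤ) * (l ^ j * c) = l ^ (j + 1) * c by ring,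
      show -((-1 : ℤ) ^ j * s) = (-1) ^ (j + 1) * s by ring] at h2

lemma no_two {p : ℤ} {l : ℕ} (hp : 0 < p) (hn : NSq (2 * p)) (H : Hy (2 * p)) (hl : l.Prime)
    (hc : Cov l (2 * p)) {x y e : ℤ} {j : ℕ} (hj : Even j) (he : e ^ 2 = 1)
    (hxy : IsCoprime x y) : x ^ 2 - 2 * p * y ^ 2 ≠ e * (2 * l ^ j) := by
  intro h
  obtain ⟨w, z, hd⟩ := hxy
  have h0 : Cst 1 0 (-(2 * p)) 1 := by
    simpa [lam_one] using river (a := 1) (b := 0) (c := -(2 * p)) hn H (by ring) (by linarith)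
  have hd' : (x * w - y * (-z)) ^ 2 = 1 := by rw [← hd]; linear_combination (w * x + z * y) * hd
  have h1 := h0.comp hd'
  have h2 := disc_comp 1 0 (-(2 * p)) x y (-z) w
  have h3 : Qf 1 0 (-(2 * p)) x y = l ^ j * (2 * e) := by unfold Qf; linear_combination h
  rw [hd'] at h2
  rw [h3] at h1 h2
  generalize Bf 1 0 (-(2 * p)) x y (-z) w = b at *
  generalize Qf 1 0 (-(2 * p)) (-z) w = c at *
  have h4 := steps hn H hl hc j (2 * e) b c 1 (by linarith) h1
  rw [hj.neg_one_pow, one_mul] at h4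
  obtain ⟨k, rfl⟩ : 2 ∣ b := Int.prime_two.dvd_of_dvd_pow (n := 2)
    ⟨p + l ^ j * e * c, by linear_combination h2⟩
  have h5 : Qf (2 * e) (2 * k) (l ^ j * c) 1 0 = 2 * e := by simp [Qf]
  have h6 : e * Qf (2 * e) (2 * k) (l ^ j * c) (-(e * k)) 1 = -p := by
    unfold Qf
    have : 2 * (e * (l ^ j * c)) = 2 * (2 * k ^ 2 - p) := by linear_combination -h2
    have h7 : e * (l ^ j * c) = 2 * k ^ 2 - p := by linarith
    linear_combination h7 + (2 * k ^ 2 * e ^ 2 - 2 * k ^ 2) * he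
  have h8 := h4 1 0 (-(e * k)) 1 (by norm_num) (by rw [h5]; nlinarith)
  have he0 : e ≠ 0 := by rintro rfl; simp at he
  have h9 : lam e = 1 := by
    rcases mul_self_eq_one_iff.mp ((sq e).symm.trans he) with rfl | rfl
    exacts [lam_one, by rw [lam_neg, lam_one]]
  have h10 := lam_prime Nat.prime_two
  rw [h5, lam_mul two_ne_zero he0, h9] at h8
  push_cast at h10
  omega

end Pool.Agent.Lib.LV51
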