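import Pool.Agent.Lib.LV51.B

/-! The 2-descent step and a power of `l` as a primitive norm. -/

set_option autoImplicit false

namespace Pool.Agent.Lib.LV51

lemma split_sq {A B y : ℤ} (hA : 0 < A) (hB : 0 < B) (hc : IsCoprime A B) (h : A * B = y ^ 2) :
    ∃ u v : ℤ, A = u ^ 2 ∧ B = v ^ 2 := by
  obtain ⟨u, hu⟩ := Int.sq_of_isCoprime hc h
  obtain ⟨v, hv⟩ := Int.sq_of_isCoprime hc.symm (by rw [mul_comm]; exact h)
  refine ⟨u, v, ?_, ?_⟩
  · rcases hu with hu | hu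
    · exact hu
    · nlinarith [sq_nonneg u]
  · rcases hv with hv | hv
    · exact hv
    · nlinarith [sq_nonneg v]

lemma split2p {p A B y : ℤ} (hp : Prime p) (hp0 : 0 < p) (hB : 0 < B) (hA : 0 < A)
    (hc : IsCoprime (2 * A) B) (h : A * B = p * y ^ 2) :
    ∃ u v : ℤ, (2 * A = u ^ 2 * (2 * p) ∧ B = v ^ 2) ∨ (A = u ^ 2 ∧ B = p * v ^ 2) := by
  have hc' : IsCoprime A B := hc.of_mul_left_right
  rcases hp.dvd_or_dvd (show p ∣ A * B from ⟨_, h⟩) with ⟨A', rfl⟩ | ⟨B', rfl⟩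
  · obtain ⟨u, v, h1, h2⟩ := split_sq (y := y) (pos_of_mul_pos_left' hA hp0) hB
      hc'.of_mul_left_right (mul_left_cancel₀ hp0.ne' (by linear_combination h))
    exact ⟨u, v, Or.inl ⟨by rw [h1]; ring, h2⟩⟩
  · obtain ⟨u, v, h1, h2⟩ := split_sq (y := y) hA (pos_of_mul_pos_left' hB hp0)
      hc'.of_mul_right_right (mul_left_cancel₀ hp0.ne' (by linear_combination h))
    exact ⟨u, v, Or.inr ⟨h1, by rw [h2]⟩⟩
where pos_of_mul_pos_left' {a b : ℤ} (h : 0 < a * b) (ha : 0 < a) : 0 < b := by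
        by_contra hh
        nlinarith

lemma h90 {p L x y : ℤ} (hp : Prime p) (hp0 : 0 < p) (hpo : Odd p) (hL : 0 < L)
    (hL2 : IsCoprime L (2 * p)) (hxy : IsCoprime x y) (hy : y ≠ 0)
    (h : x ^ 2 - 2 * p * y ^ 2 = L ^ 2) :
    ∃ u v e : ℤ, e ^ 2 = 1 ∧ IsCoprime u v ∧
      ((u ^ 2 - 2 * p * v ^ 2 = e * L ∧ y ^ 2 = (2 * u * v) ^ 2) ∨
        u ^ 2 - 2 * p * v ^ 2 = e * (2 * L)) := by
  wlog hx : 0 ≤ x generalizing x
  · exact this hxy.neg_left (by rw [neg_sq]; exact h) (by omega)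
  have hy2 : 0 < y ^ 2 := by positivity
  have hxL : L < x := by
    by_contra hh
    nlinarith [mul_pos hp0 hy2]
  have hLo : Odd L := Int.isCoprime_two_right.mp hL2.of_mul_right_left
  have hxo : Odd x := by
    have : Odd (x ^ 2) := by
      rw [show x ^ 2 = L ^ 2 + 2 * (p * y ^ 2) by linear_combination h]
      exact hLo.pow.add_even (even_two_mul _)
    exact (Int.odd_pow' two_ne_zero).mp this
  obtain ⟨l, rfl⟩ := hLo
  obtain ⟨k, rfl⟩ := hxo
  have hxL' : IsCoprime (2 * k + 1) (2 * l + 1) := by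
    have h1 : IsCoprime (2 * l + 1) y := by
      have : IsCoprime ((2 * l + 1) ^ 2) y := by
        rw [← h, show (2 * k + 1) ^ 2 - 2 * p * y ^ 2
          = (2 * k + 1) ^ 2 + y * (-(2 * p * y)) by ring]
        exact hxy.pow_left.add_mul_left_left _
      exact (IsCoprime.pow_left_iff two_pos).mp this
    have h2 : IsCoprime (2 * l + 1) ((2 * k + 1) ^ 2) := by
      rw [show (2 * k + 1) ^ 2 = 2 * p * y ^ 2 + (2 * l + 1) * (2 * l + 1) by
        linear_combination h]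
      exact (hL2.mul_right h1.pow_right).add_mul_left_right _
    exact ((IsCoprime.pow_right_iff two_pos).mp h2).symm
  have hAB : IsCoprime (k + l + 1) (k - l) := by
    obtain ⟨s, t, hst⟩ := hxL'
    exact ⟨s + t, s - t, by linear_combination hst⟩
  have hprod : 2 * ((k + l + 1) * (k - l)) = p * y ^ 2 := by linarith
  obtain ⟨y1, rfl⟩ : Even y := by
    have : Even (p * y ^ 2) := hprod ▸ even_two_mul _
    rcases Int.even_mul.mp this with h1 | h1
    · exact absurd h1 (Int.not_even_iff_odd.mpr hpo)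
    · exact (Int.even_pow' two_ne_zero).mp h1
  have hpr : (k + l + 1) * (k - l) = 2 * (p * y1 ^ 2) := by linarith
  have fin : ∀ A B e : ℤ, e ^ 2 = 1 → 0 < A → 0 < B → IsCoprime (2 * A) B →
      A * B = p * y1 ^ 2 → B - 2 * A = e * (2 * l + 1) →
      ∃ u v e : ℤ, e ^ 2 = 1 ∧ IsCoprime u v ∧
      ((u ^ 2 - 2 * p * v ^ 2 = e * (2 * l + 1) ∧ (y1 + y1) ^ 2 = (2 * u * v) ^ 2) ∨
        u ^ 2 - 2 * p * v ^ 2 = e * (2 * (2 * l + 1))) := by
    intro A B e he hA hB hc h1 h2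
    obtain ⟨u, v, ⟨h3, h4⟩ | ⟨h3, h4⟩⟩ := split2p hp hp0 hB hA hc h1
    · refine ⟨v, u, e, he, ?_, Or.inl ⟨by linear_combination h2 - h4 + h3, ?_⟩⟩
      · rw [h3, h4] at hc
        exact ((IsCoprime.pow_iff two_pos two_pos).mp hc.of_mul_left_left).symm
      · refine mul_left_cancel₀ hp0.ne' ?_
        rw [h4] at h1
        linear_combination (-4) * h1 + 2 * v ^ 2 * h3
    · refine ⟨2 * u, v, -e, by rw [neg_sq, he], ?_,
        Or.inr (by linear_combination (-2) * h2 - 4 * h3 + 2 * h4)⟩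
      rw [h3, h4] at hc
      have h5 := (IsCoprime.pow_right_iff two_pos).mp hc.of_mul_right_right
      exact h5.of_mul_left_left.mul_left
        ((IsCoprime.pow_left_iff two_pos).mp h5.of_mul_left_right)
  rcases Int.prime_two.dvd_or_dvd (show (2 : ℤ) ∣ (k + l + 1) * (k - l) from ⟨_, hpr⟩) with
    ⟨A, hA⟩ | ⟨A, hA⟩
  · refine fin A (k - l) (-1) (by norm_num) (by omega) (by omega) (hA ▸ hAB) ?_ (by omega)
    rw [hA] at hpr; linarith
  · refine fin A (k + l + 1) 1 (by norm_num) (by omega) (by omega) (hA ▸ hAB.symm) ?_ (by omega)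
    rw [hA] at hpr; linarith

/-- Proper equivalence of forms. -/
def Eqv (a b c a' b' c' : ℤ) : Prop := ∃ x y z w : ℤ, x * w - y * z = 1 ∧
  a' = Qf a b c x y ∧ b' = Bf a b c x y z w ∧ c' = Qf a b c z w

lemma Eqv.trans {a b c a' b' c' a'' b'' c'' : ℤ} (h : Eqv a b c a' b' c')
    (h' : Eqv a' b' c' a'' b'' c'') : Eqv a b c a'' b'' c'' := by
  obtain ⟨x, y, z, w, hd, rfl, rfl, rfl⟩ := h
  obtain ⟨s, t, u, v, hd', rfl, rfl, rfl⟩ := h'
  refine ⟨x * s + z * t, y * s + w * t, x * u + z * v, y * u + w * v,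
    by linear_combination (s * v - t * u) * hd + hd', qf_comp .., ?_, qf_comp ..⟩
  unfold Qf Bf; ring

lemma Eqv.symm {a b c a' b' c' : ℤ} (h : Eqv a b c a' b' c') : Eqv a' b' c' a b c := by
  obtain ⟨x, y, z, w, hd, rfl, rfl, rfl⟩ := h
  refine ⟨w, -y, -z, x, by linear_combination hd, ?_, ?_, ?_⟩ <;> unfold Qf Bf
  · linear_combination (-a * (x * w - y * z + 1)) * hd
  · linear_combination (-b * (x * w - y * z + 1)) * hd
  · linear_combination (-c * (x * w - y * z + 1)) * hd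

lemma reduce {n : ℤ} (hn : NSq n) (h0 : 0 < n) : ∀ m : ℕ, ∀ a b c : ℤ, |a| ≤ m →
    b ^ 2 - a * c = n →
    ∃ a' b' c' : ℤ, Eqv a b c a' b' c' ∧ b' ^ 2 - a' * c' = n ∧ a' * c' < 0 := by
  have hne : ∀ a b c : ℤ, b ^ 2 - a * c = n → a * c ≠ 0 := fun a b c h h1 =>
    one_ne_zero (hn b 1 (by linarith))
  intro m
  induction m with
  | zero =>
    intro a b c ha h
    have : a = 0 := abs_nonpos_iff.mp (by simpa using ha)
    exact absurd (by simp [this]) (hne a b c h)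
  | succ m ih =>
    intro a b c ha h
    have ha0 : a ≠ 0 := left_ne_zero_of_mul (hne a b c h)
    have e1 : Eqv a b c a (b % a) (Qf a b c (-(b / a)) 1) :=
      ⟨1, 0, -(b / a), 1, by ring, by simp [Qf], by rw [Int.emod_def]; unfold Bf; ring, rfl⟩
    have e2 : (b % a) ^ 2 - a * Qf a b c (-(b / a)) 1 = n := by
      rw [Int.emod_def, ← h]; unfold Qf; ring
    have b0 := Int.emod_nonneg b ha0
    have b1 := Int.emod_lt_abs b ha0
    generalize b % a = b' at *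
    generalize Qf a b c (-(b / a)) 1 = c' at *
    rcases lt_or_gt_of_ne (hne _ _ _ e2) with h1 | h1
    · exact ⟨_, _, _, e1, e2, h1⟩
    · have h2 : |a| * |c'| = a * c' := by rw [← abs_mul, abs_of_pos h1]
      have h3 : |c'| < |a| := by
        by_contra hh
        nlinarith [abs_nonneg a]
      obtain ⟨a2, b2, c2, h4, h5⟩ := ih c' (-b') a (by push_cast at ha; omega)
        (by rw [← e2]; ring)
      refine ⟨a2, b2, c2, e1.trans (Eqv.trans ⟨0, 1, -1, 0, by ring, ?_, ?_, ?_⟩ h4), h5⟩ <;>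
        simp [Qf, Bf]

lemma hensel {n l r : ℤ} (hr : l ∣ r ^ 2 - n) (hc : IsCoprime (2 * r) l) (J : ℕ) :
    ∃ r c : ℤ, r ^ 2 - n = l ^ (J + 1) * c ∧ IsCoprime (2 * r) l := by
  induction J with
  | zero => obtain ⟨c, h⟩ := hr; exact ⟨r, c, by simpa using h, hc⟩
  | succ J ih =>
    obtain ⟨r, c, h, u, v, huv⟩ := ih
    refine ⟨r - l ^ (J + 1) * (c * u), c * v + l ^ J * (c * u) ^ 2, ?_,
      u, v + 2 * u * l ^ J * (c * u), ?_⟩
    · linear_combination h - l ^ (J + 1) * c * huv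
    · linear_combination huv

lemma norm_of_eqv {n l r c c' : ℤ} {i d : ℕ} (hl : l ≠ 0) (hc : IsCoprime (2 * r) l)
    (h : r ^ 2 - l ^ (i + d) * c = n) (he : Eqv (l ^ (i + d)) r c (l ^ i) r c') :
    ∃ X Y : ℤ, IsCoprime X Y ∧ X ^ 2 - n * Y ^ 2 = l ^ d := by
  obtain ⟨x, y, z, w, hd, h1, h2, -⟩ := he
  unfold Qf at h1
  unfold Bf at h2
  have h3 : 2 * r * y = l ^ i * (w - l ^ d * x) := by
    linear_combination (-w) * h1 + y * h2 - (l ^ (i + d) * x + r * y) * hd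
  obtain ⟨Y, rfl⟩ : l ^ i ∣ y := hc.symm.pow_left.dvd_of_dvd_mul_left ⟨_, h3⟩
  have hi : l ^ i ≠ 0 := pow_ne_zero _ hl
  have h4 : 2 * r * Y = w - l ^ d * x := mul_left_cancel₀ hi (by linear_combination h3)
  have h5 : (l ^ d * x + r * Y) ^ 2 - n * Y ^ 2 = l ^ d := by
    refine mul_left_cancel₀ (mul_ne_zero hi hi) ?_
    rw [← h]
    linear_combination (-l ^ (i + d)) * h1
  refine ⟨_, Y, ?_, h5⟩
  refine (IsCoprime.pow_left_iff two_pos).mp ⟨x ^ 2, 2 * r * x - l ^ i * z - n * Y * x ^ 2, ?_⟩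
  linear_combination x ^ 2 * h5 + x * h4 + hd

lemma exists_norm {n l r : ℤ} (hn : NSq n) (h0 : 0 < n) (hl : l ≠ 0) (hr : l ∣ r ^ 2 - n)
    (hc : IsCoprime (2 * r) l) :
    ∃ d : ℕ, 0 < d ∧ ∃ X Y : ℤ, IsCoprime X Y ∧ X ^ 2 - n * Y ^ 2 = l ^ d := by
  classical
  set T : Finset (ℤ × ℤ × ℤ) :=
    Finset.Icc (-n) n ×ˢ Finset.Icc (-n) n ×ˢ Finset.Icc (-n) n with hT
  obtain ⟨r, c, h, hc⟩ := hensel hr hc T.card
  have hd : ∀ j, j ≤ T.card → r ^ 2 - l ^ j * (l ^ (T.card + 1 - j) * c) = n := by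
    intro j hj
    rw [← mul_assoc, ← pow_add, show j + (T.card + 1 - j) = T.card + 1 by omega]
    linarith
  have hex : ∀ j : ℕ, ∃ t : ℤ × ℤ × ℤ, j ≤ T.card →
      Eqv (l ^ j) r (l ^ (T.card + 1 - j) * c) t.1 t.2.1 t.2.2 ∧ t ∈ T := by
    intro j
    by_cases hj : j ≤ T.card
    · obtain ⟨a, b, c', h1, h2, h3⟩ := reduce hn h0 _ _ _ _ (Int.self_le_toNat _) (hd j hj)
      refine ⟨(a, b, c'), fun _ => ⟨h1, ?_⟩⟩
      have ha : 1 ≤ |a| := Int.one_le_abs (by rintro rfl; simp at h3)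
      have hc : 1 ≤ |c'| := Int.one_le_abs (by rintro rfl; simp at h3)
      have h4 : |a| * |c'| = -(a * c') := by rw [← abs_mul, abs_of_neg h3]
      have h5 : |a| ≤ n := by nlinarith [sq_nonneg b]
      have h6 : |c'| ≤ n := by nlinarith [sq_nonneg b]
      simp only [hT, Finset.mem_product, Finset.mem_Icc]
      refine ⟨abs_le.mp h5, ⟨?_, ?_⟩, abs_le.mp h6⟩ <;> nlinarith
    · exact ⟨0, fun h => absurd h hj⟩
  choose f hf using hex
  obtain ⟨i, hi, j, hj, hij, he⟩ := Finset.exists_ne_map_eq_of_card_lt_of_maps_to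
    (s := Finset.range (T.card + 1)) (t := T) (f := f) (by simp)
    (fun j hj => (hf j (by simpa [Nat.lt_succ_iff] using hj)).2)
  wlog hlt : i < j generalizing i j
  · exact this j hj i hi hij.symm he.symm (by omega)
  obtain ⟨d, rfl⟩ := Nat.exists_eq_add_of_le hlt.le
  have hi' : i ≤ T.card := by simpa [Nat.lt_succ_iff] using hi
  have hj' : i + d ≤ T.card := by simpa [Nat.lt_succ_iff] using hj
  exact ⟨d, by omega, norm_of_eqv hl hc (hd _ hj')
    ((hf _ hj').1.trans (he ▸ (hf _ hi').1.symm))⟩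

end Pool.Agent.Lib.LV51
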