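import Pool.Agent.Lib.LV51.C

/-! The two descents. -/

set_option autoImplicit false

namespace Pool.Agent.Lib.LV51

lemma not_sq {p : ℤ} (hpo : Odd p) : ¬ IsSquare (2 * p) := by
  rintro ⟨k, hk⟩
  obtain ⟨q, rfl⟩ : (2 : ℤ) ∣ k :=
    (Int.prime_two.dvd_or_dvd (show (2 : ℤ) ∣ k * k from ⟨p, hk.symm⟩)).elim id id
  obtain ⟨t, rfl⟩ := hpo
  have : 2 * t + 1 = 2 * (q * q) := by linarith
  omega

lemma nsq {p : ℤ} (hpo : Odd p) : NSq (2 * p) := by
  intro x y h
  by_contra hy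
  obtain ⟨k, rfl⟩ : y ∣ x := (Int.pow_dvd_pow_iff two_ne_zero).mp ⟨2 * p, by rw [h]; ring⟩
  exact not_sq hpo ⟨k, mul_left_cancel₀ (pow_ne_zero 2 hy) (by linear_combination -h)⟩

lemma caseA {p : ℤ} (hp : Prime p) (hp0 : 0 < p) (hpo : Odd p) (H : Hy (2 * p))
    (hm : ∀ u v : ℤ, u ^ 2 - 2 * p * v ^ 2 ≠ -1) : False := by
  have hn := nsq hpo
  have key : ∀ m : ℕ, ∀ x y : ℤ, |y| ≤ m → y ≠ 0 → x ^ 2 - 2 * p * y ^ 2 = 1 → False := by
    intro m
    induction m with
    | zero => intro x y h hy _; exact hy (abs_nonpos_iff.mp (by simpa using h))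
    | succ m ih =>
      intro x y h hy he
      obtain ⟨u, v, e, h1, h2, ⟨h3, h4⟩ | h3⟩ := h90 (L := 1) hp hp0 hpo one_pos
        isCoprime_one_left ⟨x, -(2 * p * y), by linear_combination he⟩ hy (by simpa using he)
      · rcases mul_self_eq_one_iff.mp ((sq e).symm.trans h1) with rfl | rfl
        · have h5 : |y| = 2 * |u| * |v| := by
            rw [(sq_eq_sq_iff_abs_eq_abs _ _).mp h4, abs_mul, abs_mul, abs_two]
          have hu : u ≠ 0 := by rintro rfl; simp [hy] at h5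
          have hv : v ≠ 0 := by rintro rfl; simp [hy] at h5
          have h6 := Int.one_le_abs hu
          have h7 := Int.one_le_abs hv
          exact ih u v (by push_cast at h; nlinarith) hv (by simpa using h3)
        · exact hm u v (by simpa using h3)
      · exact no_two (l := 3) (j := 0) hp0 hn H Nat.prime_three (cov3 hn) Even.zero h1 h2
          (by simpa using h3)
  obtain ⟨x, y, h1, h2⟩ := Pell.exists_of_not_isSquare (by linarith) (not_sq hpo)
  exact key _ x y (Int.self_le_toNat _) h2 h1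

lemma caseB {p s t r : ℤ} {l : ℕ} (hp : Prime p) (hp0 : 0 < p) (hpo : Odd p) (H : Hy (2 * p))
    (hst : s ^ 2 - 2 * p * t ^ 2 = -1) (hl : l.Prime) (hc : Cov l (2 * p))
    (hlp : IsCoprime (l : ℤ) (2 * p)) (hr : (l : ℤ) ∣ r ^ 2 - 2 * p)
    (hrl : IsCoprime (2 * r) (l : ℤ))
    (G : ∀ x y e : ℤ, ∀ j : ℕ, e ^ 2 = 1 → Odd j → x ^ 2 - 2 * p * y ^ 2 ≠ e * l ^ j ∧
      x ^ 2 - 2 * p * y ^ 2 ≠ e * (2 * l ^ j)) : False := by
  have hn := nsq hpo
  have hl1 : (1 : ℤ) < l := by exact_mod_cast hl.one_lt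
  have key : ∀ N : ℕ, 0 < N → ∀ x y e : ℤ, e ^ 2 = 1 → IsCoprime x y →
      x ^ 2 - 2 * p * y ^ 2 = e * l ^ N → False := by
    intro N
    induction N using Nat.strong_induction_on with
    | _ N ih =>
      intro hN x y e he hxy h
      have pos : ∀ x y : ℤ, IsCoprime x y → x ^ 2 - 2 * p * y ^ 2 = l ^ N → False := by
        intro x y hxy h
        rcases Nat.even_or_odd N with ⟨M, rfl⟩ | hodd
        · have hy : y ≠ 0 := by
            rintro rfl
            have h1 : x ^ 2 = 1 := by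
              rcases Int.isUnit_iff.mp (isCoprime_zero_right.mp hxy) with rfl | rfl <;> norm_num
            have h2 : (1 : ℤ) < l ^ (M + M) := one_lt_pow₀ hl1 hN.ne'
            linarith
          obtain ⟨u, v, e, h1, h2, ⟨h3, -⟩ | h3⟩ := h90 (L := l ^ M) hp hp0 hpo (by positivity)
            hlp.pow_left hxy hy (by rw [h]; ring)
          · exact ih M (by omega) (by omega) u v e h1 h2 h3
          · rcases Nat.even_or_odd M with h4 | h4
            · exact no_two hp0 hn H hl hc h4 h1 h2 h3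
            · exact (G u v e M h1 h4).2 h3
        · exact (G x y 1 N (by norm_num) hodd).1 (by rw [h, one_mul])
      rcases mul_self_eq_one_iff.mp ((sq e).symm.trans he) with rfl | rfl
      · exact pos x y hxy (by rw [h, one_mul])
      · obtain ⟨a, b, hab⟩ := hxy
        refine pos (x * s + 2 * p * y * t) (x * t + y * s)
          ⟨-a * s + b * t, a * (2 * p) * t - b * s, ?_⟩ ?_
        · linear_combination hab - (a * x + b * y) * hst
        · linear_combination (s ^ 2 - 2 * p * t ^ 2) * h - l ^ N * hst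
  obtain ⟨d, hd, X, Y, h1, h2⟩ := exists_norm hn (by linarith) (by linarith) hr hrl
  exact key d hd X Y 1 (by norm_num) h1 (by rw [h2, one_mul])

lemma genus {p l : ℕ} [Fact p.Prime] (h8 : p % 8 = 1) (hl : ¬ IsSquare (l : ZMod p))
    (x y e : ℤ) (j : ℕ) (he : e ^ 2 = 1) (hj : Odd j) :
    x ^ 2 - 2 * p * y ^ 2 ≠ e * l ^ j ∧ x ^ 2 - 2 * p * y ^ 2 ≠ e * (2 * l ^ j) := by
  have hp2 : p ≠ 2 := by omega
  obtain ⟨a, ha⟩ : IsSquare (e : ZMod p) := by
    rcases mul_self_eq_one_iff.mp ((sq e).symm.trans he) with rfl | rfl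
    · simp
    · simpa using ZMod.exists_sq_eq_neg_one_iff.mpr (by omega : p % 4 ≠ 3)
  obtain ⟨b, hb⟩ : IsSquare (2 : ZMod p) := (ZMod.exists_sq_eq_two_iff hp2).mpr (Or.inl h8)
  have he' : (e : ZMod p) ^ 2 = 1 := by exact_mod_cast congrArg (Int.cast : ℤ → ZMod p) he
  have ha0 : a ≠ 0 := by
    rintro rfl
    rw [ha] at he'; simp at he'
  have hb0 : b ≠ 0 := by
    rintro rfl
    have h1 : ((2 : ℕ) : ZMod p) = 0 := by simpa using hb
    have h2 := Nat.le_of_dvd two_pos ((ZMod.natCast_eq_zero_iff 2 p).mp h1)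
    have h3 := (Fact.out : p.Prime).two_le
    omega
  have hl0 : (l : ZMod p) ≠ 0 := fun h => hl (h ▸ IsSquare.zero)
  obtain ⟨i, rfl⟩ := hj
  have fin : ∀ g : ZMod p, g ≠ 0 → (x : ZMod p) ^ 2 ≠ l * g ^ 2 := fun g hg h =>
    hl ⟨x / g, by field_simp; linear_combination -h⟩
  constructor <;> intro h <;> have h1 := congrArg (Int.cast : ℤ → ZMod p) h <;>
    push_cast at h1 <;> rw [ZMod.natCast_self, ha] at h1
  · exact fin (a * l ^ i) (mul_ne_zero ha0 (pow_ne_zero _ hl0)) (by linear_combination h1)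
  · exact fin (a * b * l ^ i) (mul_ne_zero (mul_ne_zero ha0 hb0) (pow_ne_zero _ hl0))
      (by linear_combination h1 + a * a * l ^ (2 * i + 1) * hb)

lemma not_hy {p : ℕ} (hp : p.Prime)
    (h : p % 4 = 3 ∨ p % 24 = 17 ∨ p % 40 = 17 ∨ p % 40 = 33) : ¬ Hy (2 * p) := by
  intro H
  have : Fact p.Prime := ⟨hp⟩
  have hP : Prime (p : ℤ) := Nat.prime_iff_prime_int.mp hp
  have hp0 : (0 : ℤ) < p := by exact_mod_cast hp.pos
  have hpo : Odd (p : ℤ) := Int.odd_iff.mpr (by omega)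
  refine caseA hP hp0 hpo H fun s t hst => ?_
  have h4 : p % 4 ≠ 3 := by
    refine ZMod.exists_sq_eq_neg_one_iff.mp ⟨(s : ZMod p), ?_⟩
    have h1 := congrArg (Int.cast : ℤ → ZMod p) hst
    push_cast at h1
    rw [ZMod.natCast_self] at h1
    linear_combination -h1
  have cop : ∀ l : ℕ, l.Prime → l ≠ 2 → l ≠ p → IsCoprime (l : ℤ) (2 * p) := fun l hl h2 h3 =>
    (Nat.isCoprime_iff_coprime.mpr ((Nat.coprime_primes hl Nat.prime_two).mpr h2)).mul_right
      (Nat.isCoprime_iff_coprime.mpr ((Nat.coprime_primes hl hp).mpr h3))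
  have nsq' : ∀ l r : ℕ, l.Prime → l ≠ 2 → p % l = r → ¬ IsSquare (r : ZMod l) →
      ¬ IsSquare (l : ZMod p) := by
    intro l r hl h2 h3 h5 h6
    have : Fact l.Prime := ⟨hl⟩
    rw [ZMod.exists_sq_eq_prime_iff_of_mod_four_eq_one (by omega) h2, ← ZMod.natCast_mod, h3]
      at h6
    exact h5 h6
  have h5 : p % 5 ≠ 0 → Cov (5 : ℕ) (2 * p) := fun h0 =>
    cov5 (nsq hpo) fun b hb => by generalize b ^ 2 = c at hb; omega
  rcases h with h | h | h | h
  · exact h4 h
  · exact caseB (l := 3) (r := 1) hP hp0 hpo H hst Nat.prime_three (cov3 (nsq hpo))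
      (cop 3 Nat.prime_three (by omega) (by omega)) (by push_cast; omega) ⟨-1, 1, by norm_num⟩
      (genus (by omega) (nsq' 3 2 Nat.prime_three (by omega) (by omega) (by decide)))
  · exact caseB (l := 5) (r := 2) hP hp0 hpo H hst Nat.prime_five (h5 (by omega))
      (cop 5 Nat.prime_five (by omega) (by omega)) (by push_cast; omega) ⟨-1, 1, by norm_num⟩
      (genus (by omega) (nsq' 5 2 Nat.prime_five (by omega) (by omega) (by decide)))
  · exact caseB (l := 5) (r := 1) hP hp0 hpo H hst Nat.prime_five (h5 (by omega))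
      (cop 5 Nat.prime_five (by omega) (by omega)) (by push_cast; omega) ⟨-2, 1, by norm_num⟩
      (genus (by omega) (nsq' 5 3 Nat.prime_five (by omega) (by omega) (by decide)))

lemma of_not_hy {n : ℕ} (h : ¬ Hy n) (k : ℕ) (hk : 0 < k) :
    ∃ m : ℕ, m ^ 2 < n * k ^ 2 ∧ Odd (ArithmeticFunction.cardFactors (n * k ^ 2 - m ^ 2)) := by
  unfold Hy at h
  push Not at h
  obtain ⟨b, h1, h2⟩ := h
  have h3 : b.natAbs ^ 2 < n := by
    rw [← Int.natAbs_sq] at h1; exact_mod_cast h1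
  have h4 : ((n : ℤ) - b ^ 2).natAbs = n - b.natAbs ^ 2 := by
    rw [← Int.natAbs_sq, ← Nat.cast_pow, ← Nat.cast_sub h3.le, Int.natAbs_natCast]
  refine ⟨b.natAbs * k, ?_, ?_⟩
  · rw [mul_pow]; exact Nat.mul_lt_mul_of_pos_right h3 (by positivity)
  · rw [mul_pow, ← Nat.sub_mul, ArithmeticFunction.cardFactors_mul (by omega) (by positivity),
      ArithmeticFunction.cardFactors_pow]
    refine Odd.add_even ?_ (even_two_mul _)
    rw [← Nat.not_even_iff_odd]
    intro h5
    exact h2 (by unfold lam; rw [h4, h5.neg_one_pow])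

end Pool.Agent.Lib.LV51
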