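import Pool.Agent.Lib.LV51.D

/-! Rivers that miss a line modulo 7 both in the form and in its 2-neighbour. -/

set_option autoImplicit false

namespace Pool.Agent.Lib.LV51

/-- The river and the river of the 2-neighbour both miss the line `x s + z t = 0` modulo 7. -/
def Bad7 (a b c x z : ℤ) : Prop := ∀ s t u v : ℤ, (s * v - t * u) ^ 2 = 1 →
  Qf a b c s t * Qf a b c u v < 0 → ¬ 7 ∣ x * s + z * t ∧ (Even (Qf a b c u v) →
    Qf a b c (s + u) (t + v) * Qf a b c u v < 0 → ¬ 7 ∣ x * (2 * s + u) + z * (2 * t + v))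

lemma Bad7.comp {a b c p q x y z w a' b' c' p' q' : ℤ} (h : Bad7 a b c p q)
    (hd : (x * w - y * z) ^ 2 = 1) (ha : a' = Qf a b c x y) (hb : b' = Bf a b c x y z w)
    (hc : c' = Qf a b c z w) (hp : p' = p * x + q * y) (hq : q' = p * z + q * w) :
    Bad7 a' b' c' p' q' := by
  subst ha hb hc hp hq
  intro s t u v h1 h2
  rw [qf_comp, qf_comp] at h2
  obtain ⟨h3, h4⟩ := h _ _ _ _ (by rw [det_comp, hd, h1, one_mul]) h2
  rw [qf_comp, qf_comp]
  refine ⟨fun h5 => h3 ?_, fun h5 h6 h7 => h4 h5 ?_ ?_⟩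
  · rwa [show p * (x * s + z * t) + q * (y * s + w * t)
      = (p * x + q * y) * s + (p * z + q * w) * t by ring]
  · rwa [show x * s + z * t + (x * u + z * v) = x * (s + u) + z * (t + v) by ring,
      show y * s + w * t + (y * u + w * v) = y * (s + u) + w * (t + v) by ring]
  · rwa [show p * (2 * (x * s + z * t) + (x * u + z * v))
      + q * (2 * (y * s + w * t) + (y * u + w * v))
      = (p * x + q * y) * (2 * s + u) + (p * z + q * w) * (2 * t + v) by ring]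

/-- A river form with a linear form. -/
@[ext] structure St where
  /-- first coefficient -/
  A : ℤ
  /-- half the middle coefficient -/
  B : ℤ
  /-- last coefficient -/
  C : ℤ
  /-- linear form at the first vector -/
  X : ℤ
  /-- linear form at the second vector -/
  Z : ℤ

/-- The next river edge keeps the second vector. -/
def St.mv (S : St) : Bool := decide ((S.A + 2 * S.B + S.C) * S.C < 0)

/-- The next river edge. -/
def St.next (S : St) : St :=
  if S.mv then ⟨S.A + 2 * S.B + S.C, S.B + S.C, S.C, S.X + S.Z, S.Z⟩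
  else ⟨S.A, S.A + S.B, S.A + 2 * S.B + S.C, S.X, S.X + S.Z⟩

/-- Bad river edges of determinant `n`. -/
def St.G (n : ℤ) (S : St) : Prop :=
  S.B ^ 2 - S.A * S.C = n ∧ S.A * S.C < 0 ∧ Bad7 S.A S.B S.C S.X S.Z

/-- Residues of a state. -/
def St.ab (S : St) : ZMod 7 × ZMod 7 × ZMod 2 × ZMod 2 := (S.X, S.Z, S.A, S.C)

/-- Allowed moves on residues. -/
def okm (q : ZMod 7 × ZMod 7 × ZMod 2 × ZMod 2) (m : Bool) : Bool :=
  decide (q.1 ≠ 0 ∧ q.2.1 ≠ 0 ∧ q.1 + q.2.1 ≠ 0 ∧ ¬ (q.2.2.1 = 0 ∧ q.2.2.2 = 0) ∧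
    (m = true → q.2.2.2 = 0 → q.1 + q.1 + q.2.1 ≠ 0) ∧
    (m = false → q.2.2.1 = 0 → q.1 + q.2.1 + q.2.1 ≠ 0))

/-- The move on residues. -/
def nxm (q : ZMod 7 × ZMod 7 × ZMod 2 × ZMod 2) (m : Bool) : ZMod 7 × ZMod 7 × ZMod 2 × ZMod 2 :=
  if m then (q.1 + q.2.1, q.2.1, q.2.2.1 + q.2.2.2, q.2.2.2)
  else (q.1, q.1 + q.2.1, q.2.2.1, q.2.2.1 + q.2.2.2)

/-- Allowed words. -/
def pathm : ZMod 7 × ZMod 7 × ZMod 2 × ZMod 2 → List Bool → Bool
  | _, [] => true
  | q, m :: l => okm q m && pathm (nxm q m) l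

lemma aut : ∀ (x z : ZMod 7) (a c : ZMod 2) (m1 m2 : Bool), pathm (x, z, a, c) [m1, m2] = true →
    ∀ m3 m4 m5 m6 m7 : Bool, pathm (x, z, a, c) [m1, m2, m3, m4, m5, m6, m7] = true →
    m3 ≠ m5 := by decide +kernel

lemma mv_false {n : ℤ} (hn : NSq n) {S : St} (h : S.G n) (hm : S.mv = false) :
    (S.A + 2 * S.B + S.C) * S.A < 0 := by
  have hu : S.A + 2 * S.B + S.C ≠ 0 := by
    simpa [Qf] using qf_ne (x := 1) (y := 1) hn h.1 (Or.inl one_ne_zero)
  exact (partner hu h.2.1).resolve_right (by simpa [St.mv] using hm)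

lemma G_next {n : ℤ} (hn : NSq n) {S : St} (h : S.G n) : S.next.G n := by
  unfold St.next
  cases hm : S.mv
  · refine ⟨?_, ?_, h.2.2.comp (x := 1) (y := 0) (z := 1) (w := 1) (by norm_num)
      (by simp [Qf]) (by simp [Bf]) (by simp [Qf]) (by simp) (by simp)⟩
    · rw [← h.1]; simp; ring
    · simpa [mul_comm] using mv_false hn h hm
  · refine ⟨?_, ?_, h.2.2.comp (x := 1) (y := 1) (z := 0) (w := 1) (by norm_num)
      (by simp [Qf]) (by simp [Bf]) (by simp [Qf]) (by simp) (by simp)⟩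
    · rw [← h.1]; simp; ring
    · simpa [St.mv] using hm

lemma ab_next (S : St) : S.next.ab = nxm S.ab S.mv := by
  have h2 : (2 : ZMod 2) = 0 := rfl
  unfold St.next nxm St.ab
  cases S.mv <;> simp [h2]

lemma ok_of_G {p : ℤ} (hp : Odd p) {S : St} (h : S.G (2 * p)) : okm S.ab S.mv = true := by
  have hn := nsq hp
  have d7 : ∀ a : ℤ, ¬ 7 ∣ a → (a : ZMod 7) ≠ 0 := fun a ha h0 =>
    ha ((ZMod.intCast_zmod_eq_zero_iff_dvd a 7).mp h0)
  have d2 : ∀ a : ℤ, (a : ZMod 2) = 0 → Even a := fun a h0 =>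
    even_iff_two_dvd.mpr ((ZMod.intCast_zmod_eq_zero_iff_dvd a 2).mp h0)
  have hr : Qf S.A S.B S.C 1 0 * Qf S.A S.B S.C 0 1 < 0 := by simpa [Qf] using h.2.1
  have h1 := h.2.2 1 0 0 1 (by norm_num) hr
  have h2 := h.2.2 0 1 1 0 (by norm_num) (by rwa [mul_comm])
  obtain ⟨u, v, h3, h4⟩ := onriver (s := 1) (t := 1) hn h.1 hr (by norm_num) (by norm_num)
  have h5 := (h.2.2 1 1 u v h3 h4).1
  unfold okm St.ab
  apply decide_eq_true
  refine ⟨d7 _ (by simpa using h1.1), d7 _ (by simpa using h2.1),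
    by simpa using d7 _ h5, ?_, fun hm h6 => ?_, fun hm h6 => ?_⟩
  · rintro ⟨ha, hc⟩
    obtain ⟨a, ha⟩ := d2 _ ha
    obtain ⟨c, hc⟩ := d2 _ hc
    have h7 := h.1
    rw [ha, hc] at h7
    obtain ⟨k, hk⟩ : 2 ∣ S.B := Int.prime_two.dvd_of_dvd_pow (n := 2)
      ⟨p + 2 * a * c, by linear_combination h7⟩
    obtain ⟨r, rfl⟩ := hp
    have : 2 * r + 1 = 2 * (k ^ 2 - a * c) := by rw [hk] at h7; linarith
    omega
  · have h7 := d7 _ (h1.2 (by simpa [Qf] using d2 _ h6) (by simpa [Qf, St.mv] using hm))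
    rw [show S.X * (2 * 1 + 0) + S.Z * (2 * 0 + 1) = S.X + S.X + S.Z by ring] at h7
    simpa using h7
  · have h7 := d7 _ (h2.2 (by simpa [Qf] using d2 _ h6)
      (by simpa [Qf] using mv_false hn h hm))
    rw [show S.X * (2 * 0 + 1) + S.Z * (2 * 1 + 0) = S.X + S.Z + S.Z by ring] at h7
    simpa using h7

/-- The word read along the river. -/
def mvs : ℕ → St → List Bool
  | 0, _ => []
  | k + 1, S => S.mv :: mvs k S.next

lemma path_mvs {p : ℤ} (hp : Odd p) : ∀ (k : ℕ) (S : St), S.G (2 * p) →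
    pathm S.ab (mvs k S) = true := by
  intro k
  induction k with
  | zero => intro S _; rfl
  | succ k ih =>
    intro S h
    simp only [mvs, pathm, ok_of_G hp h, Bool.true_and, ← ab_next]
    exact ih _ (G_next (nsq hp) h)

lemma G_pre {n : ℤ} (hn : NSq n) {S : St} (h : S.G n) : ∃ S0 : St, S0.G n ∧ S0.next = S := by
  have hm : S.A - 2 * S.B + S.C ≠ 0 := by
    have := qf_ne (x := 1) (y := -1) hn h.1 (Or.inl one_ne_zero)
    rwa [show Qf S.A S.B S.C 1 (-1) = S.A - 2 * S.B + S.C by unfold Qf; ring] at this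
  have hac := h.2.1
  rcases partner hm hac with h1 | h1
  · refine ⟨⟨S.A, S.B - S.A, S.A - 2 * S.B + S.C, S.X, S.Z - S.X⟩, ⟨?_, ?_,
      h.2.2.comp (x := 1) (y := 0) (z := -1) (w := 1) (by norm_num) (by simp [Qf])
        (by simp only [Bf]; ring) (by simp only [Qf]; ring) (by simp) (by simp only []; ring)⟩, ?_⟩
    · rw [← h.1]; simp only []; ring
    · simpa [mul_comm] using h1
    · have : St.mv ⟨S.A, S.B - S.A, S.A - 2 * S.B + S.C, S.X, S.Z - S.X⟩ = false := by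
        simp only [St.mv, decide_eq_false_iff_not, not_lt]
        rw [show S.A + 2 * (S.B - S.A) + (S.A - 2 * S.B + S.C) = S.C by ring]
        by_contra hh
        have ha : 0 < S.A ^ 2 := by
          have : S.A ≠ 0 := by intro h0; simp [h0] at hac
          positivity
        nlinarith [mul_pos_of_neg_of_neg h1 hac, mul_pos ha (neg_pos.mpr (not_le.mp hh))]
      unfold St.next
      rw [this]
      ext <;> simp <;> ring
  · refine ⟨⟨S.A - 2 * S.B + S.C, S.B - S.C, S.C, S.X - S.Z, S.Z⟩, ⟨?_, h1,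
      h.2.2.comp (x := 1) (y := -1) (z := 0) (w := 1) (by norm_num) (by simp only [Qf]; ring)
        (by simp only [Bf]; ring) (by simp [Qf]) (by simp only []; ring) (by simp)⟩, ?_⟩
    · rw [← h.1]; simp only []; ring
    · have : St.mv ⟨S.A - 2 * S.B + S.C, S.B - S.C, S.C, S.X - S.Z, S.Z⟩ = true := by
        simp only [St.mv, decide_eq_true_eq]
        rwa [show S.A - 2 * S.B + S.C + 2 * (S.B - S.C) + S.C = S.A by ring]
      unfold St.next
      rw [this]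
      ext <;> simp <;> ring

lemma anti {p : ℤ} (hp : Odd p) {S : St} (h : S.G (2 * p)) : S.mv ≠ S.next.next.mv := by
  obtain ⟨S1, h1, rfl⟩ := G_pre (nsq hp) h
  obtain ⟨S0, h0, rfl⟩ := G_pre (nsq hp) h1
  exact aut _ _ _ _ _ _ (path_mvs hp 2 S0 h0) _ _ _ _ _ (path_mvs hp 7 S0 h0)

lemma two_moves {S : St} (h : S.mv = S.next.mv) :
    (S.mv = true ∧ S.next.next.A = S.A + 4 * S.B + 4 * S.C ∧ S.next.next.B = S.B + 2 * S.C ∧
      S.next.next.C = S.C) ∨ (S.mv = false ∧ S.next.next.A = S.A ∧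
      S.next.next.B = 2 * S.A + S.B ∧ S.next.next.C = 4 * S.A + 4 * S.B + S.C) := by
  cases hm : S.mv
  · right
    have e : S.next = ⟨S.A, S.A + S.B, S.A + 2 * S.B + S.C, S.X, S.X + S.Z⟩ := by
      simp [St.next, hm]
    rw [St.next, ← h, hm, e]
    refine ⟨rfl, rfl, ?_, ?_⟩ <;> simp <;> ring
  · left
    have e : S.next = ⟨S.A + 2 * S.B + S.C, S.B + S.C, S.C, S.X + S.Z, S.Z⟩ := by
      simp [St.next, hm]
    rw [St.next, ← h, hm, e]
    refine ⟨rfl, ?_, ?_, rfl⟩ <;> simp <;> ring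

lemma no_G {p : ℤ} (hp : Odd p) (h2 : ∀ b : ℤ, p ≠ b ^ 2) (S : St) : ¬ S.G (2 * p) := by
  intro hS
  have hn := nsq hp
  have bb : ∀ a b c d : Bool, a ≠ c → b ≠ d → (a = b ↔ c = d) := by decide
  have hex : ∃ t : ℤ, ∃ S : St, S.G (2 * p) ∧ S.mv = S.next.mv ∧ t = |S.A + S.C| := by
    by_cases h : S.mv = S.next.mv
    · exact ⟨_, S, hS, h, rfl⟩
    · refine ⟨_, S.next, G_next hn hS, ?_, rfl⟩
      have := anti hp hS
      revert h this
      cases S.mv <;> cases S.next.mv <;> cases S.next.next.mv <;> simp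
  obtain ⟨t, ⟨S, h, hm, rfl⟩, hmax⟩ := Int.exists_greatest_of_bdd ⟨2 * p + 1, by
    rintro t ⟨S, ⟨h, hac, -⟩, -, rfl⟩
    have ha : 1 ≤ |S.A| := Int.one_le_abs (by intro h0; simp [h0] at hac)
    have hc : 1 ≤ |S.C| := Int.one_le_abs (by intro h0; simp [h0] at hac)
    have h1 : |S.A| * |S.C| = -(S.A * S.C) := by rw [← abs_mul, abs_of_neg hac]
    have h2 := abs_add_le S.A S.C
    nlinarith [sq_nonneg S.B, mul_nonneg (sub_nonneg.mpr ha) (sub_nonneg.mpr hc)]⟩ hex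
  have k2 := hmax _ ⟨S.next.next, G_next hn (G_next hn h),
    (bb _ _ _ _ (anti hp h) (anti hp (G_next hn h))).mp hm, rfl⟩
  obtain ⟨S1, h1, rfl⟩ := G_pre hn h
  obtain ⟨S0, h0, rfl⟩ := G_pre hn h1
  have hm0 := (bb _ _ _ _ (anti hp h0) (anti hp h1)).mpr hm
  have k0 := hmax _ ⟨S0, h0, hm0, rfl⟩
  have ha := anti hp h0
  have hd := h.1
  have fin : ∀ t u v : ℤ, u + v = 6 * t → |u| ≤ |t| → |v| ≤ |t| → t = 0 ∧ v = 0 := by
    intro t u v e1 e2 e3
    have e4 := abs_add_le u v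
    rw [e1, abs_mul, abs_of_pos (by norm_num : (0 : ℤ) < 6)] at e4
    have e5 : |t| = 0 := by have := abs_nonneg t; omega
    rw [e5] at e3
    exact ⟨abs_eq_zero.mp e5, abs_nonpos_iff.mp e3⟩
  have e0 := two_moves hm0
  have e1 := two_moves hm
  generalize S0.next.next = T at *
  rcases e0 with ⟨a0, a1, a2, a3⟩ | ⟨a0, a1, a2, a3⟩ <;>
    rcases e1 with ⟨b0, b1, b2, b3⟩ | ⟨b0, b1, b2, b3⟩
  · exact ha (a0.trans b0.symm)
  · obtain ⟨f1, f2⟩ := fin _ _ _ (by omega) k0 k2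
    have g1 : T.A = -T.B := by omega
    have g2 : T.C = T.B := by omega
    exact h2 T.B (by rw [g1, g2] at hd; linarith)
  · obtain ⟨f1, f2⟩ := fin _ _ _ (by omega) k0 k2
    have g1 : T.A = T.B := by omega
    have g2 : T.C = -T.B := by omega
    exact h2 T.B (by rw [g1, g2] at hd; linarith)
  · exact ha (a0.trans b0.symm)

end Pool.Agent.Lib.LV51
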