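import Pool.Agent.Lib.LV51.E

/-! The sign flips under the prime above 7 when `n = 2 p`; the descent for `p ≡ 5 mod 8`. -/

set_option autoImplicit false

namespace Pool.Agent.Lib.LV51

lemma cst_of_river {n a b c x y z w : ℤ} (hn : NSq n) (H : Hy n) (h : b ^ 2 - a * c = n)
    (hd : (x * w - y * z) ^ 2 = 1) (hr : Qf a b c x y * Qf a b c z w < 0) :
    Cst a b c (lam (Qf a b c x y)) := by
  have h1 : Bf a b c x y z w ^ 2 - Qf a b c x y * Qf a b c z w = n := by
    rw [disc_comp, hd, h, mul_one]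
  intro s t u v hd' hr'
  have e : ∀ s t : ℤ, Qf (Qf a b c x y) (Bf a b c x y z w) (Qf a b c z w)
      (w * s - z * t) (x * t - y * s) = Qf a b c s t := by
    intro s t
    rw [qf_comp]
    unfold Qf
    linear_combination (a * s ^ 2 + 2 * b * s * t + c * t ^ 2) * hd
  have h2 := river hn H h1 hr (w * s - z * t) (x * t - y * s) (w * u - z * v) (x * v - y * u)
    (by linear_combination (s * v - t * u) ^ 2 * hd + hd') (by rwa [e, e])
  rwa [e] at h2

lemma step_at {n a b c σ s t u v : ℤ} {l : ℕ} (hn : NSq n) (H : Hy n) (hl : l.Prime)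
    (h : b ^ 2 - a * (l * c) = n) (hd : (s * v - t * u) ^ 2 = 1)
    (hr : Qf a b (l * c) s t * Qf a b (l * c) u v < 0) (hs : (l : ℤ) ∣ s)
    (hc : Cst (l * a) b c σ) : Cst a b (l * c) (-σ) := by
  obtain ⟨x, rfl⟩ := hs
  have h0 := cst_of_river hn H h hd hr
  have e1 : Qf a b (l * c) (l * x) t = l * Qf (l * a) b c x t := by unfold Qf; ring
  have e2 : Qf (l * a) b c u (l * v) = l * Qf a b (l * c) u v := by unfold Qf; ring
  have h6 : Qf (l * a) b c x t * Qf (l * a) b c u (l * v) < 0 := by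
    rw [e2]; rw [e1] at hr; linarith
  have h7 := hc x t u (l * v) (by rw [← hd]; ring) h6
  have h8 : Qf (l * a) b c x t ≠ 0 := by rintro h0; simp [h0] at h6
  rwa [e1, lam_mul (by exact_mod_cast hl.ne_zero) h8, lam_prime hl, h7, neg_one_mul] at h0

lemma cov2 {n : ℤ} (hn : NSq n) : Cov (2 : ℕ) n := by
  intro a b c h hac x z
  have hr : Qf a b c 1 0 * Qf a b c 0 1 < 0 := by simpa [Qf] using hac
  have : 2 ∣ x * 1 + z * 0 ∨ 2 ∣ x * 0 + z * 1 ∨ 2 ∣ x * 1 + z * 1 := by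
    have h1 : x % 2 = 0 ∨ x % 2 = 1 := by omega
    have h2 : z % 2 = 0 ∨ z % 2 = 1 := by omega
    rcases h1 with h1 | h1 <;> rcases h2 with h2 | h2 <;> omega
  rcases this with h1 | h1 | h1
  · exact ⟨1, 0, 0, 1, by norm_num, hr, h1⟩
  · exact ⟨0, 1, 1, 0, by norm_num, by rwa [mul_comm], h1⟩
  · exact hit_of hn h hr (by norm_num) (by norm_num) h1

lemma Cst.swap {a b c s : ℤ} (h : Cst a b c s) : Cst c b a s := by
  simpa [Qf, Bf] using h.comp (x := 0) (y := 1) (z := 1) (w := 0) (by norm_num)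

lemma step7 {p a b c σ : ℤ} (hp : Odd p) (h2 : ∀ b : ℤ, p ≠ b ^ 2) (H : Hy (2 * p)) (ha : Odd a)
    (h : b ^ 2 - a * (7 * (2 * c)) = 2 * p) (hc : Cst (7 * a) b (2 * c) σ) :
    Cst a b (7 * (2 * c)) (-σ) := by
  have hn := nsq hp
  have p7 : Nat.Prime 7 := by norm_num
  intro x y z w hd hr
  have hb : ¬ Bad7 a b (7 * (2 * c)) 1 0 := fun hb =>
    no_G hp h2 ⟨Qf a b (7 * (2 * c)) x y, Bf a b (7 * (2 * c)) x y z w,
      Qf a b (7 * (2 * c)) z w, 1 * x + 0 * y, 1 * z + 0 * w⟩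
      ⟨(disc_comp ..).trans (by rw [hd, h, mul_one]), hr, hb.comp hd rfl rfl rfl rfl rfl⟩
  refine (?_ : Cst a b (7 * (2 * c)) (-σ)) x y z w hd hr
  clear hd hr x y z w
  unfold Bad7 at hb
  push Not at hb
  obtain ⟨s, t, u, v, hd, hr, hb⟩ := hb
  by_cases h7 : 7 ∣ 1 * s + 0 * t
  · exact step_at (l := 7) hn H p7 h hd hr (by simpa using h7) hc
  have h8 := hb
  rw [imp_iff_right h7] at h8
  obtain ⟨he, hr2, h9⟩ := h8
  obtain ⟨u', rfl⟩ : 2 ∣ u := by
    have : Even (a * u ^ 2) := by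
      rw [show a * u ^ 2 = Qf a b (7 * (2 * c)) u v - 2 * (b * u * v + 7 * c * v ^ 2) by
        unfold Qf; ring]
      exact he.sub (even_two_mul _)
    rcases Int.even_mul.mp this with h1 | h1
    · exact absurd h1 (Int.not_even_iff_odd.mpr ha)
    · exact even_iff_two_dvd.mp ((Int.even_pow' two_ne_zero).mp h1)
  have c1 : Cst (7 * (2 * a)) b c (-σ) := by
    have := (step (l := 2) (a := c) (c := 7 * a) hn H Nat.prime_two (cov2 hn)
      (by rw [← h]; push_cast; ring) hc.swap).swap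
    rwa [show ((2 : ℕ) : ℤ) * (7 * a) = 7 * (2 * a) by push_cast; ring] at this
  have e1 : 2 * Qf (2 * a) b (7 * c) u' v = Qf a b (7 * (2 * c)) (2 * u') v := by
    unfold Qf; ring
  have e2 : 2 * Qf (2 * a) b (7 * c) (s + u') (2 * t + v) = 2 * Qf a b (7 * (2 * c)) s t
      + 2 * Qf a b (7 * (2 * c)) (s + 2 * u') (t + v) - Qf a b (7 * (2 * c)) (2 * u') v := by
    unfold Qf; ring
  have c2 := step_at (l := 7) (a := 2 * a) (c := c) (s := s + u') (t := 2 * t + v) (u := u')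
    (v := v) hn H p7 (by rw [← h]; push_cast; ring) (by rw [← hd]; ring)
    (by
      push_cast
      rw [← e1] at hr hr2 e2
      have e3 := congrArg (· * Qf (2 * a) b (7 * c) u' v) e2
      nlinarith [sq_nonneg (Qf (2 * a) b (7 * c) u' v)])
    (by push_cast; omega) c1
  have c3 := step (l := 2) (a := a) (c := 7 * c) hn H Nat.prime_two (cov2 hn)
    (by rw [← h]; push_cast; ring) c2
  rwa [show ((2 : ℕ) : ℤ) * (7 * c) = 7 * (2 * c) by push_cast; ring, neg_neg] at c3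

lemma steps7 {p : ℤ} (hp : Odd p) (h2 : ∀ b : ℤ, p ≠ b ^ 2) (H : Hy (2 * p)) :
    ∀ j : ℕ, ∀ a b c s : ℤ, Odd a → b ^ 2 - (7 ^ j * a) * (2 * c) = 2 * p →
      Cst (7 ^ j * a) b (2 * c) s → Cst a b (7 ^ j * (2 * c)) ((-1) ^ j * s) := by
  intro j
  induction j with
  | zero => intro a b c s _ _ h; simpa using h
  | succ j ih =>
    intro a b c s ha h hs
    have h1 := ih (7 * a) b c s (Odd.mul (by decide) ha) (by rw [← h]; ring)
      (by rwa [show (7 : ℤ) ^ j * (7 * a) = 7 ^ (j + 1) * a by ring])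
    rw [show (7 : ℤ) ^ j * (2 * c) = 2 * (7 ^ j * c) by ring] at h1
    have h3 := step7 hp h2 H ha (by rw [← h]; ring) h1
    rwa [show (7 : ℤ) * (2 * (7 ^ j * c)) = 7 ^ (j + 1) * (2 * c) by ring,
      show -((-1 : ℤ) ^ j * s) = (-1) ^ (j + 1) * s by ring] at h3

lemma no_odd7 {p : ℤ} (hp0 : 0 < p) (hp : Odd p) (h2 : ∀ b : ℤ, p ≠ b ^ 2) (H : Hy (2 * p))
    {x y e : ℤ} {j : ℕ} (hj : Odd j) (he : e ^ 2 = 1) (hxy : IsCoprime x y) :
    x ^ 2 - 2 * p * y ^ 2 ≠ e * 7 ^ j := by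
  intro h
  have hn := nsq hp
  have he' := mul_self_eq_one_iff.mp ((sq e).symm.trans he)
  have heo : Odd e := by rcases he' with rfl | rfl <;> decide
  have hA : Odd (7 ^ j * e) := (Odd.pow (by decide)).mul heo
  have key : ∀ b c : ℤ, Even b → b ^ 2 - 7 ^ j * e * c = 2 * p → Cst (7 ^ j * e) b c 1 →
      False := by
    intro b c hb h1 h3
    obtain ⟨c, rfl⟩ : 2 ∣ c := by
      have : Even (7 ^ j * e * c) := by
        rw [show 7 ^ j * e * c = b ^ 2 - 2 * p by linarith]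
        exact (hb.pow_of_ne_zero two_ne_zero).sub (even_two_mul _)
      exact even_iff_two_dvd.mp
        ((Int.even_mul.mp this).resolve_left (Int.not_even_iff_odd.mpr hA))
    have h4 := steps7 hp h2 H j e b c 1 heo h1 h3
    rw [hj.neg_one_pow] at h4
    have h5 : Qf e b (7 ^ j * (2 * c)) 1 0 = e := by simp [Qf]
    have h6 : e * Qf e b (7 ^ j * (2 * c)) (-(e * b)) 1 = -(2 * p) := by
      unfold Qf
      linear_combination (-1) * h1 + (b ^ 2 * e ^ 2 - b ^ 2) * he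
    have h8 := h4 1 0 (-(e * b)) 1 (by norm_num) (by rw [h5]; linarith)
    have h9 : lam e = 1 := by
      rcases he' with rfl | rfl
      exacts [lam_one, by rw [lam_neg, lam_one]]
    rw [h5, h9] at h8
    omega
  obtain ⟨w, z, hd⟩ := hxy
  have h0 : Cst 1 0 (-(2 * p)) 1 := by
    simpa [lam_one] using river (a := 1) (b := 0) (c := -(2 * p)) hn H (by ring) (by linarith)
  have hd' : (x * w - y * (-z)) ^ 2 = 1 := by rw [← hd]; linear_combination (w * x + z * y) * hd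
  have h1 := h0.comp hd'
  have h2 := disc_comp 1 0 (-(2 * p)) x y (-z) w
  have h3 : Qf 1 0 (-(2 * p)) x y = 7 ^ j * e := by unfold Qf; linear_combination h
  rw [hd'] at h2
  rw [h3] at h1 h2
  generalize Bf 1 0 (-(2 * p)) x y (-z) w = b at *
  generalize Qf 1 0 (-(2 * p)) (-z) w = c at *
  rcases Int.even_or_odd b with hb | hb
  · exact key b c hb (by linarith) h1
  · refine key (7 ^ j * e + b) (7 ^ j * e + 2 * b + c) (hA.add_odd hb)
      (by linear_combination h2) ?_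
    simpa [Qf, Bf] using h1.comp (x := 1) (y := 0) (z := 1) (w := 1) (by norm_num)

lemma caseC {p s t r : ℤ} (hp : Prime p) (hp0 : 0 < p) (hpo : Odd p) (H : Hy (2 * p))
    (hst : s ^ 2 - 2 * p * t ^ 2 = -1) (hlp : IsCoprime (7 : ℤ) (2 * p))
    (hr : (7 : ℤ) ∣ r ^ 2 - 2 * p) (hrl : IsCoprime (2 * r) (7 : ℤ))
    (G : ∀ x y e : ℤ, ∀ j : ℕ, e ^ 2 = 1 → x ^ 2 - 2 * p * y ^ 2 ≠ e * (2 * 7 ^ j)) : False := by
  have hn := nsq hpo
  have h2 : ∀ b : ℤ, p ≠ b ^ 2 := fun b hb => hp.not_isSquare ⟨b, by rw [hb, sq]⟩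
  have key : ∀ N : ℕ, 0 < N → ∀ x y e : ℤ, e ^ 2 = 1 → IsCoprime x y →
      x ^ 2 - 2 * p * y ^ 2 = e * 7 ^ N → False := by
    intro N
    induction N using Nat.strong_induction_on with
    | _ N ih =>
      intro hN x y e he hxy h
      have pos : ∀ x y : ℤ, IsCoprime x y → x ^ 2 - 2 * p * y ^ 2 = 7 ^ N → False := by
        intro x y hxy h
        rcases Nat.even_or_odd N with ⟨M, rfl⟩ | hodd
        · have hy : y ≠ 0 := by
            rintro rfl
            have h1 : x ^ 2 = 1 := by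
              rcases Int.isUnit_iff.mp (isCoprime_zero_right.mp hxy) with rfl | rfl <;> norm_num
            have h2 : (1 : ℤ) < 7 ^ (M + M) := one_lt_pow₀ (by norm_num) hN.ne'
            linarith
          obtain ⟨u, v, e, h1, h2, ⟨h3, -⟩ | h3⟩ := h90 (L := 7 ^ M) hp hp0 hpo (by positivity)
            hlp.pow_left hxy hy (by rw [h]; ring)
          · exact ih M (by omega) (by omega) u v e h1 h2 h3
          · exact G u v e M h1 h3
        · exact no_odd7 (e := 1) hp0 hpo h2 H hodd (by norm_num) hxy (by rw [h, one_mul])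
      rcases mul_self_eq_one_iff.mp ((sq e).symm.trans he) with rfl | rfl
      · exact pos x y hxy (by rw [h, one_mul])
      · obtain ⟨a, b, hab⟩ := hxy
        refine pos (x * s + 2 * p * y * t) (x * t + y * s)
          ⟨-a * s + b * t, a * (2 * p) * t - b * s, ?_⟩ ?_
        · linear_combination hab - (a * x + b * y) * hst
        · linear_combination (s ^ 2 - 2 * p * t ^ 2) * h - 7 ^ N * hst
  obtain ⟨d, hd, X, Y, h1, h2⟩ := exists_norm hn (by linarith) (by norm_num) hr hrl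
  exact key d hd X Y 1 (by norm_num) h1 (by rw [h2, one_mul])

lemma genus7 {p : ℕ} [Fact p.Prime] (h8 : p % 8 = 5) (h7 : p % 7 = 1 ∨ p % 7 = 2 ∨ p % 7 = 4)
    (x y e : ℤ) (j : ℕ) (he : e ^ 2 = 1) : x ^ 2 - 2 * p * y ^ 2 ≠ e * (2 * 7 ^ j) := by
  have : Fact (Nat.Prime 7) := ⟨by norm_num⟩
  obtain ⟨a, ha⟩ : IsSquare (e : ZMod p) := by
    rcases mul_self_eq_one_iff.mp ((sq e).symm.trans he) with rfl | rfl
    · simp
    · simpa using ZMod.exists_sq_eq_neg_one_iff.mpr (by omega : p % 4 ≠ 3)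
  obtain ⟨b, hb⟩ : IsSquare ((7 : ℕ) : ZMod p) := by
    rw [ZMod.exists_sq_eq_prime_iff_of_mod_four_eq_one (by omega) (by omega), ← ZMod.natCast_mod]
    rcases h7 with h | h | h <;> rw [h]
    exacts [⟨1, rfl⟩, ⟨3, rfl⟩, ⟨2, rfl⟩]
  have he' : (e : ZMod p) ^ 2 = 1 := by exact_mod_cast congrArg (Int.cast : ℤ → ZMod p) he
  have ha0 : a ≠ 0 := by
    rintro rfl
    rw [ha] at he'; simp at he'
  have hb0 : b ≠ 0 := by
    rintro rfl
    have h2 := Nat.le_of_dvd (by norm_num) ((ZMod.natCast_eq_zero_iff 7 p).mp (by simpa using hb))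
    omega
  intro h
  have h1 := congrArg (Int.cast : ℤ → ZMod p) h
  push_cast at h1 hb
  rw [ZMod.natCast_self, ha, hb, mul_pow] at h1
  have h2 : IsSquare (2 : ZMod p) :=
    ⟨x / (a * b ^ j), by field_simp; linear_combination -h1⟩
  have := (ZMod.exists_sq_eq_two_iff (by omega : p ≠ 2)).mp h2
  omega

lemma not_hy7 {p : ℕ} (hp : p.Prime) (h : p % 56 = 29 ∨ p % 56 = 37 ∨ p % 56 = 53) :
    ¬ Hy (2 * p) := by
  intro H
  have : Fact p.Prime := ⟨hp⟩
  have hP : Prime (p : ℤ) := Nat.prime_iff_prime_int.mp hp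
  have hp0 : (0 : ℤ) < p := by exact_mod_cast hp.pos
  have hpo : Odd (p : ℤ) := Int.odd_iff.mpr (by omega)
  refine caseA hP hp0 hpo H fun s t hst => ?_
  have cop : IsCoprime (7 : ℤ) (2 * p) := IsCoprime.mul_right ⟨1, -3, by norm_num⟩
    (Nat.isCoprime_iff_coprime.mpr ((Nat.coprime_primes (by norm_num : Nat.Prime 7) hp).mpr
      (by omega)))
  have G := genus7 (p := p) (by omega) (by omega)
  rcases h with h | h | h
  · exact caseC (r := 3) hP hp0 hpo H hst cop (by omega) ⟨-1, 1, by norm_num⟩ G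
  · exact caseC (r := 2) hP hp0 hpo H hst cop (by omega) ⟨2, -1, by norm_num⟩ G
  · exact caseC (r := 1) hP hp0 hpo H hst cop (by omega) ⟨-3, 1, by norm_num⟩ G

end Pool.Agent.Lib.LV51
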